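import Pool.Agent.Helper87.UV.FarC
import Pool.Agent.Helper56.UG.FarD

/-!
# UV: block Z8 (`far_mean`), from Z3-Z7 and R2
-/

set_option autoImplicit false
open MeasureTheory Set Filter Topology
open Pool.Agent.Helper57.Zeta Pool.Agent.Helper57.LH Pool.Agent.Helper57.ED Pool.Agent.Helper54.LG
open Pool.Agent.Helper69.UV
open Pool.Agent.Helper69.UG (pt NX)
open Pool.Agent.Helper56.UG (aj aj_nonneg Jc zs_re56 two_za_le tsum_bound56 sum_aj plog_pt plog)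

namespace Pool.Agent.Helper87.UV

variable {δ : ℝ}

/-- constants depending on `T` -/
lemma ev_T (hδ : 0 < δ) (hδ1 : δ ≤ 1 / 32) (C3 C7 I1 : ℝ) : ∃ T0 : ℝ, ∀ T : ℝ, T0 ≤ T → Real.exp 3 ≤ T ∧ 1 ≤ Real.log (Real.log T) ∧
    2 * ((2 + 4 * Real.log T ^ 2) * (C3 * T ^ (-(δ ^ 2 / 2000))) * (3 * Real.log T * T ^ (δ ^ 2 / 8000))) ≤ 1 / 4 ∧
    T ^ (δ ^ 2 / 8000) * T ^ (-(δ / 2000)) ≤ 1 / 4 ∧
    T ^ (δ ^ 2 / 8000) * (C7 / T) * (I1 * (T ^ (1 / 2 - δ) * T ^ (δ / 64)) ^ 2 * T ^ δ) ≤ 1 / 4 := by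
  have hl : Tendsto Real.log atTop atTop := Real.tendsto_log_atTop
  have t1 : Tendsto (fun T : ℝ => 36 * |C3| * (Real.log T ^ (3 : ℝ) / T ^ (3 * δ ^ 2 / 8000))) atTop (𝓝 (36 * |C3| * 0)) :=
    ((isLittleO_log_rpow_rpow_atTop (3 : ℝ) (by positivity : (0 : ℝ) < 3 * δ ^ 2 / 8000)).tendsto_div_nhds_zero).const_mul _
  have t2 : Tendsto (fun T : ℝ => T ^ (-(δ / 4000))) atTop (𝓝 0) := tendsto_rpow_neg_atTop (by positivity)
  have t3 : Tendsto (fun T : ℝ => |C7| * |I1| * T ^ (-(δ / 2))) atTop (𝓝 (|C7| * |I1| * 0)) :=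
    (tendsto_rpow_neg_atTop (by positivity)).const_mul _
  rw [mul_zero] at t1 t3
  obtain ⟨T0, h0⟩ := Filter.eventually_atTop.1 ((((t1.eventually_le_const (show (0 : ℝ) < 1 / 4 by norm_num)).and
    (t2.eventually_le_const (show (0 : ℝ) < 1 / 4 by norm_num))).and
    (t3.eventually_le_const (show (0 : ℝ) < 1 / 4 by norm_num))).and (((hl.comp hl).eventually_ge_atTop 1).and
      (eventually_ge_atTop (Real.exp 3))))
  refine ⟨T0, fun T hT => ?_⟩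
  obtain ⟨⟨⟨a1, a2⟩, a3⟩, a4, a5⟩ := h0 T hT
  simp only [Function.comp_apply] at a4
  have hT1 : 1 ≤ T := le_trans (by have := Real.add_one_le_exp (3 : ℝ); linarith) a5
  have hT0 : 0 < T := by linarith
  have hL3 : 3 ≤ Real.log T := by
    rw [← Real.log_exp 3]
    exact Real.log_le_log (Real.exp_pos _) a5
  have hδ2 : δ ^ 2 ≤ δ := by nlinarith
  refine ⟨a5, a4, ?_, ?_, ?_⟩
  · have e1 : T ^ (-(δ ^ 2 / 2000)) * T ^ (δ ^ 2 / 8000) = (T ^ (3 * δ ^ 2 / 8000))⁻¹ := by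
      rw [← Real.rpow_add hT0, ← Real.rpow_neg hT0.le]
      congr 1
      ring
    have e2 : 2 * ((2 + 4 * Real.log T ^ 2) * (C3 * T ^ (-(δ ^ 2 / 2000))) * (3 * Real.log T * T ^ (δ ^ 2 / 8000))) =
        6 * (2 + 4 * Real.log T ^ 2) * Real.log T * C3 * (T ^ (3 * δ ^ 2 / 8000))⁻¹ := by
      rw [← e1]
      ring
    rw [e2]
    refine le_trans ?_ a1
    have e3 : Real.log T ^ (3 : ℝ) = Real.log T ^ 3 := by exact_mod_cast Real.rpow_natCast (Real.log T) 3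
    have e5 : 36 * |C3| * (Real.log T ^ (3 : ℝ) / T ^ (3 * δ ^ 2 / 8000)) = 36 * |C3| * Real.log T ^ 3 * (T ^ (3 * δ ^ 2 / 8000))⁻¹ := by
      rw [e3]
      ring
    rw [e5]
    apply mul_le_mul_of_nonneg_right _ (by positivity)
    have e4 : 2 + 4 * Real.log T ^ 2 ≤ 6 * Real.log T ^ 2 := by nlinarith
    calc 6 * (2 + 4 * Real.log T ^ 2) * Real.log T * C3 ≤ 6 * (2 + 4 * Real.log T ^ 2) * Real.log T * |C3| :=
          mul_le_mul_of_nonneg_left (le_abs_self _) (by positivity)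
      _ ≤ 6 * (6 * Real.log T ^ 2) * Real.log T * |C3| := by gcongr
      _ = 36 * |C3| * Real.log T ^ 3 := by ring
  · rw [← Real.rpow_add hT0]
    refine le_trans ?_ a2
    apply Real.rpow_le_rpow_of_exponent_le hT1
    linarith
  · refine le_trans ?_ a3
    have e1 : T ^ (δ ^ 2 / 8000) * (C7 / T) * (I1 * (T ^ (1 / 2 - δ) * T ^ (δ / 64)) ^ 2 * T ^ δ) =
        C7 * I1 * (T ^ (δ ^ 2 / 8000) * T⁻¹ * (T ^ (1 / 2 - δ) * T ^ (δ / 64)) ^ 2 * T ^ δ) := by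
      rw [div_eq_mul_inv]
      ring
    have e2 : T ^ (δ ^ 2 / 8000) * T⁻¹ * (T ^ (1 / 2 - δ) * T ^ (δ / 64)) ^ 2 * T ^ δ =
        T ^ (δ ^ 2 / 8000 + -1 + (1 / 2 - δ + δ / 64) * (2 : ℕ) + δ) := by
      rw [← Real.rpow_add hT0 (1 / 2 - δ), ← Real.rpow_natCast (T ^ (1 / 2 - δ + δ / 64)) 2, ← Real.rpow_mul hT0.le,
        ← Real.rpow_neg_one T, ← Real.rpow_add hT0, ← Real.rpow_add hT0, ← Real.rpow_add hT0]
    rw [e1, e2]
    have e3 : T ^ (δ ^ 2 / 8000 + -1 + (1 / 2 - δ + δ / 64) * (2 : ℕ) + δ) ≤ T ^ (-(δ / 2)) := by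
      apply Real.rpow_le_rpow_of_exponent_le hT1
      push_cast
      linarith
    calc C7 * I1 * T ^ (δ ^ 2 / 8000 + -1 + (1 / 2 - δ + δ / 64) * (2 : ℕ) + δ) ≤
          |C7| * |I1| * T ^ (δ ^ 2 / 8000 + -1 + (1 / 2 - δ + δ / 64) * (2 : ℕ) + δ) := by
          apply mul_le_mul_of_nonneg_right _ (by positivity)
          rw [← abs_mul]
          exact le_abs_self _
      _ ≤ |C7| * |I1| * T ^ (-(δ / 2)) := mul_le_mul_of_nonneg_left e3 (by positivity)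

/-- Z8 from its inputs -/
theorem far_mean_of (hδ : 0 < δ) (hδ1 : δ ≤ 1 / 32)
    (h3 : ∃ C : ℝ, 0 < C ∧ ∀ δ : ℝ, 0 < δ → δ ≤ 1 / 32 → ∀ T : ℝ, 3 ≤ T → ∀ c y : ℝ, 0 < y → ∀ K : ℕ, 1 ≤ K → 4 * 2 ^ K * y ≤ δ * Real.log T / 8 →
      ∀ (t : ℝ) (Z : Finset ZS),
      (∀ ρ ∈ Z, y ≤ Real.log T * ((ρ : ℂ).re - 1 / 2) ∧ Real.log T * ((ρ : ℂ).re - 1 / 2) ≤ 2 * y ∧
        |(ρ : ℂ).im - t| ≤ y / Real.log T) →
      ∑ ρ ∈ Z, mx ρ ≤ GY δ T c y K t + C * Real.log (4 + |t|) * (2 * cen δ T c y (K - 1) t))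
    (h4 : ∃ C c0 T0 : ℝ, 0 < C ∧ ∀ T, T0 ≤ T → ∀ c, Adm δ c0 T c → ∀ v : ℝ, v ^ 2 = (1 - 4 * δ) * c →
      ∀ τ u y : ℝ, |τ| ≤ 2 * T → |u| ≤ T → 2 ≤ y → ∀ K : ℕ, 1 ≤ K → 4 * 2 ^ K * y ≤ δ * Real.log T / 8 →
      Integrable (fun t => wt δ T c v τ t * GY δ T c y K (t + u)) ∧
      ∫ t, wt δ T c v τ t * GY δ T c y K (t + u) ≤ C * Real.exp (C * √c - δ * y / 64) * VV δ T c v)
    (h5 : ∃ c0 T0 : ℝ, ∀ T, T0 ≤ T → ∀ c, Adm δ c0 T c → ∀ v : ℝ, v ^ 2 = (1 - 4 * δ) * c →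
      ∀ τ u y : ℝ, |τ| ≤ 2 * T → |u| ≤ T → 2 ≤ y → ∀ K : ℕ, 1 ≤ K → 4 * 2 ^ K * y ≤ δ * Real.log T / 8 →
      δ * Real.log T / 8 < 8 * 2 ^ K * y →
      Integrable (fun t => wt δ T c v τ t * (Real.log (4 + |t + u|) * cen δ T c y (K - 1) (t + u))) ∧
      ∫ t, wt δ T c v τ t * (Real.log (4 + |t + u|) * cen δ T c y (K - 1) (t + u)) ≤ T ^ (-(δ ^ 2 / 2000)) * VV δ T c v)
    (h6 : open Classical in ∃ c0 T0 : ℝ, ∀ T, T0 ≤ T → ∀ c, Adm δ c0 T c → ∀ v : ℝ, v ^ 2 = (1 - 4 * δ) * c →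
      ∀ τ u : ℝ, |τ| ≤ 2 * T → |u| ≤ T →
      Integrable (fun t => wt δ T c v τ t * ∑' ρ : ZS, mx ρ * (if |(ρ : ℂ).re - 1 / 2| < δ / 128 then 0 else
        1 / (1 + zb (XX δ T c) (t + u) ρ ^ 2))) ∧
      ∫ t, wt δ T c v τ t * ∑' ρ : ZS, mx ρ * (if |(ρ : ℂ).re - 1 / 2| < δ / 128 then 0 else
        1 / (1 + zb (XX δ T c) (t + u) ρ ^ 2)) ≤ T ^ (-(δ / 2000)) * VV δ T c v)
    (h7 : open Classical in ∃ C : ℝ, 0 < C ∧ ∀ T : ℝ, 3 ≤ T → ∀ X : ℝ, 1 ≤ X → ∀ t : ℝ,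
      Summable (fun ρ : ZS => mx ρ * (1 / (1 + zb X t ρ ^ 2))) ∧
      ∑' ρ : ZS, mx ρ * (if |(ρ : ℂ).im - t| ≤ T / 2 then 0 else 1 / (1 + zb X t ρ ^ 2)) ≤
        C * Real.log (4 + T + |t|) / T)
    (h2 : ∃ c0 T0 : ℝ, ∀ T, T0 ≤ T → ∀ c, Adm δ c0 T c → ∀ v : ℝ, v ^ 2 = (1 - 4 * δ) * c → ∀ n,
      |rr δ T c v n| ≤ T ^ (δ / 64) ∧ 1 ≤ VV δ T c v) :
    ∃ C1 c0 T0 : ℝ, 1 ≤ C1 ∧ ∀ T, T0 ≤ T → ∀ c, Adm δ c0 T c → ∀ v : ℝ, v ^ 2 = (1 - 4 * δ) * c →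
      ∀ τ u : ℝ, |τ| ≤ 2 * T → |u| ≤ T / 4 →
      Integrable (fun t => wt δ T c v τ t * far δ T c (C1 * √c) (t + u)) ∧
      ∫ t, wt δ T c v τ t * far δ T c (C1 * √c) (t + u) ≤ VV δ T c v := by
  classical
  obtain ⟨C3', hC3', h3⟩ := h3
  obtain ⟨C4, c4, T4, hC4, h4⟩ := h4
  obtain ⟨c5, T5, h5⟩ := h5
  obtain ⟨c6, T6, h6⟩ := h6
  obtain ⟨C7, hC7, h7⟩ := h7
  obtain ⟨c2, T2, h2⟩ := h2
  obtain ⟨I1, hI1, hlog⟩ := wt_log (δ := δ) hδ hδ1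
  set C3 : ℝ := 2 * C3' with hC3
  have hC30 : 0 < C3 := by positivity
  obtain ⟨cc0, hcc⟩ := Pool.Agent.Helper56.UG.ev_c C4
  obtain ⟨TT0, hTT⟩ := ev_T (δ := δ) hδ hδ1 C3 C7 I1
  set C1 : ℝ := 128 * (C4 + 1) / δ with hC1
  have hδC1 : δ * C1 = 128 * (C4 + 1) := by
    rw [hC1]
    field_simp
  have hC1128 : 128 ≤ C1 := by
    rw [hC1, le_div_iff₀ hδ]
    nlinarith
  have hC1one : 1 ≤ C1 := by linarith
  refine ⟨C1, max (max (max c4 c5) (max c6 c2)) (max cc0 (8000 / δ ^ 4)), max (max (max T4 T5) (max T6 T2)) TT0, hC1one, ?_⟩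
  intro T hT c hc v hv τ u hτ hu
  simp only [Adm, max_le_iff] at hT hc
  obtain ⟨⟨⟨⟨hc4, hc5⟩, hc6, hc2⟩, hccc, hc8⟩, hcA⟩ := hc
  obtain ⟨⟨⟨hT4, hT5⟩, hT6, hT2⟩, hTTT⟩ := hT
  obtain ⟨g1, g2, g3, g4, g5⟩ := hTT T hTTT
  have hδ40 : 0 < δ ^ 4 := by positivity
  have hδ41 : δ ^ 4 ≤ 1 := pow_le_one₀ hδ.le (by linarith)
  have hδ21 : δ ^ 2 ≤ 1 := pow_le_one₀ hδ.le (by linarith)
  have hc4k : 8000 ≤ δ ^ 4 * c := by
    rw [div_le_iff₀ hδ40] at hc8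
    linarith
  have hcpos : 0 < c := by
    by_contra hcon
    push Not at hcon
    nlinarith
  have hc8000 : 8000 ≤ c := by nlinarith
  have hc3k : 512 ≤ δ ^ 3 * c := by
    have h9 : δ ^ 4 * c = δ * (δ ^ 3 * c) := by ring
    have h10 : 0 < δ ^ 3 * c := by positivity
    nlinarith
  have hT3 : 3 ≤ T := le_trans (by have := Real.add_one_le_exp (3 : ℝ); linarith) g1
  have hT0 : 0 < T := by linarith
  have hL3 : 3 ≤ Real.log T := by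
    rw [← Real.log_exp 3]
    exact Real.log_le_log (Real.exp_pos _) g1
  have hcl : c ≤ c * Real.log (Real.log T) := le_mul_of_one_le_right hcpos.le g2
  have hdL : δ ^ 2 * Real.log T ≤ Real.log T := by nlinarith
  have hcL : c ≤ Real.log T := by nlinarith
  have hdc : δ ^ 2 * c ≤ c := by nlinarith
  have hdc0 : 0 < δ ^ 2 * c := by positivity
  have hX16 : 16 ≤ XX δ T c := by
    unfold XX
    rw [le_div_iff₀ hdc0]
    nlinarith
  have hXe : Real.exp (XX δ T c) ≤ T ^ (δ ^ 2 / 8000) := by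
    rw [Real.rpow_def_of_pos hT0]
    apply Real.exp_le_exp.2
    unfold XX
    rw [div_le_iff₀ hdc0]
    have h9 : Real.log T * 8000 ≤ Real.log T * (δ ^ 4 * c) := by gcongr
    nlinarith
  have hV1 : 1 ≤ VV δ T c v := (h2 T hT2 c ⟨hc2, hcA⟩ v hv 0).2
  have hrr : ∀ n, |rr δ T c v n| ≤ T ^ (δ / 64) := fun n => (h2 T hT2 c ⟨hc2, hcA⟩ v hv n).1
  have hV0 : 0 ≤ VV δ T c v := by linarith
  have hsq : 1 ≤ √c := by
    rw [Real.one_le_sqrt]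
    linarith
  set Y : ℝ := C1 * √c with hY
  have hY128 : 128 ≤ Y := by
    rw [hY]
    nlinarith
  have hY1 : 1 ≤ Y := by linarith
  have hδY : δ * Y = 128 * (C4 + 1) * √c := by
    rw [hY, ← mul_assoc, hδC1]
  have hδY128 : 128 ≤ δ * Y := by
    rw [hδY]
    nlinarith
  have hch : ∀ T : ℝ, 3 ≤ T → ∀ c y : ℝ, 0 < y → ∀ K : ℕ, 1 ≤ K → 4 * 2 ^ K * y ≤ δ * Real.log T / 8 →
      ∀ (t : ℝ) (Z : Finset ZS),
      (∀ ρ ∈ Z, y ≤ Real.log T * ((ρ : ℂ).re - 1 / 2) ∧ Real.log T * ((ρ : ℂ).re - 1 / 2) ≤ 2 * y ∧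
        |(ρ : ℂ).im - t| ≤ y / Real.log T) →
      ∑ ρ ∈ Z, mx ρ ≤ GY δ T c y K t + C3 / 2 * Real.log (4 + |t|) * (2 * cen δ T c y (K - 1) t) := by
    intro T hT c y hy K hK hKy t Z hZ
    have := h3 δ hδ hδ1 T hT c y hy K hK hKy t Z hZ
    rw [hC3, mul_div_cancel_left₀ _ (by norm_num : (2 : ℝ) ≠ 0)]
    exact this
  -- the means
  have hLY : ∀ k ∈ IK δ T Y, Integrable (fun t => wt δ T c v τ t * LY C3 δ T c (2 ^ k * Y) (t + u)) ∧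
      ∫ t, wt δ T c v τ t * LY C3 δ T c (2 ^ k * Y) (t + u) ≤
        Real.exp (4 * (2 ^ k * Y) / (δ ^ 2 * c)) * ((2 + 4 * (δ ^ 2 * c) ^ 2) * ((C4 * Real.exp (C4 * √c - δ * (2 ^ k * Y) / 64) + C3 * T ^ (-(δ ^ 2 / 2000))) * VV δ T c v)) := by
    intro k hk
    have h1k : (1 : ℝ) ≤ 2 ^ k := one_le_pow₀ (by norm_num)
    have hkI : 2 ^ k * Y ≤ δ * Real.log T / 128 := by
      unfold IK at hk
      exact (Finset.mem_filter.1 hk).2
    refine mean_LY hδ hδ1 hC30.le hC4.le hT3 hu hV0 ?_ ?_ (by nlinarith) hkI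
    · intro u' y hu' hy K hK hKy
      exact h4 T hT4 c ⟨hc4, hcA⟩ v hv τ u' y hτ hu' hy K hK hKy
    · intro u' y hu' hy K hK hKy hKy2
      exact h5 T hT5 c ⟨hc5, hcA⟩ v hv τ u' y hτ hu' hy K hK hKy hKy2
  obtain ⟨i6, b6⟩ := h6 T hT6 c ⟨hc6, hcA⟩ v hv τ u hτ (by linarith)
  obtain ⟨i7, b7⟩ := hlog T c v τ u _ (by linarith) hrr hτ hu
  -- the majorant
  set M : ℝ → ℝ := fun t => 2 * ∑ k ∈ IK δ T Y, wt δ T c v τ t * LY C3 δ T c (2 ^ k * Y) (t + u) +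
    Real.exp (XX δ T c) * (C7 / T) * (wt δ T c v τ t * Real.log (4 + T + |t + u|)) +
    Real.exp (XX δ T c) * (wt δ T c v τ t * ∑' ρ : ZS, mx ρ * (if |(ρ : ℂ).re - 1 / 2| < δ / 128 then 0 else
      1 / (1 + zb (XX δ T c) (t + u) ρ ^ 2))) with hM
  have iA : Integrable (fun t => 2 * ∑ k ∈ IK δ T Y, wt δ T c v τ t * LY C3 δ T c (2 ^ k * Y) (t + u)) :=
    (integrable_finsetSum _ fun k hk => (hLY k hk).1).const_mul 2
  have iB : Integrable (fun t => Real.exp (XX δ T c) * (C7 / T) * (wt δ T c v τ t * Real.log (4 + T + |t + u|))) := i7.const_mul _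
  have iC : Integrable (fun t => Real.exp (XX δ T c) * (wt δ T c v τ t * ∑' ρ : ZS, mx ρ * (if |(ρ : ℂ).re - 1 / 2| < δ / 128 then 0 else
      1 / (1 + zb (XX δ T c) (t + u) ρ ^ 2)))) := i6.const_mul _
  have iM : Integrable M := (iA.add iB).add iC
  have bA : ∫ t, 2 * ∑ k ∈ IK δ T Y, wt δ T c v τ t * LY C3 δ T c (2 ^ k * Y) (t + u) ≤ 1 / 4 * VV δ T c v + 1 / 4 * VV δ T c v := by
    rw [integral_const_mul, integral_finsetSum _ fun k hk => (hLY k hk).1]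
    have q1 : ∑ k ∈ IK δ T Y, ∫ t, wt δ T c v τ t * LY C3 δ T c (2 ^ k * Y) (t + u) ≤
        ∑ k ∈ IK δ T Y, ((2 + 4 * (δ ^ 2 * c) ^ 2) * (C4 * Real.exp (C4 * √c)) * VV δ T c v *
          (Real.exp (4 * (2 ^ k * Y) / (δ ^ 2 * c)) * Real.exp (-(δ * (2 ^ k * Y) / 64))) +
          (2 + 4 * (δ ^ 2 * c) ^ 2) * (C3 * T ^ (-(δ ^ 2 / 2000))) * VV δ T c v * Real.exp (4 * (2 ^ k * Y) / (δ ^ 2 * c))) := by
      refine Finset.sum_le_sum fun k hk => (hLY k hk).2.trans (le_of_eq ?_)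
      rw [sub_eq_add_neg, Real.exp_add]
      ring
    rw [Finset.sum_add_distrib, ← Finset.mul_sum, ← Finset.mul_sum] at q1
    have q2 := sum_k1 (T := T) (Y := Y) hδ hcpos hc3k (by linarith) hδY128
    have q3 := sum_k2 (T := T) (c := c) (Y := Y) hδ (le_trans (Real.exp_le_exp.2 (by norm_num)) g1) hcpos (by linarith)
    have q4 : Real.exp (C4 * √c) * (2 * Real.exp (-(δ * Y / 128))) = 2 * Real.exp (-√c) := by
      have q5 : -√c = C4 * √c + -(δ * Y / 128) := by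
        rw [hδY]
        ring
      rw [q5, Real.exp_add]
      ring
    have q5 := hcc c hccc
    have q6 : 2 * ((2 + 4 * (δ ^ 2 * c) ^ 2) * (C4 * Real.exp (C4 * √c)) * VV δ T c v * ∑ k ∈ IK δ T Y,
        (Real.exp (4 * (2 ^ k * Y) / (δ ^ 2 * c)) * Real.exp (-(δ * (2 ^ k * Y) / 64)))) ≤ 1 / 4 * VV δ T c v := by
      calc 2 * ((2 + 4 * (δ ^ 2 * c) ^ 2) * (C4 * Real.exp (C4 * √c)) * VV δ T c v * ∑ k ∈ IK δ T Y,
            (Real.exp (4 * (2 ^ k * Y) / (δ ^ 2 * c)) * Real.exp (-(δ * (2 ^ k * Y) / 64)))) ≤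
            2 * ((2 + 4 * (δ ^ 2 * c) ^ 2) * (C4 * Real.exp (C4 * √c)) * VV δ T c v * (2 * Real.exp (-(δ * Y / 128)))) := by
            apply mul_le_mul_of_nonneg_left _ (by norm_num)
            apply mul_le_mul_of_nonneg_left q2 (by positivity)
        _ = 2 * (2 + 4 * (δ ^ 2 * c) ^ 2) * C4 * VV δ T c v * (Real.exp (C4 * √c) * (2 * Real.exp (-(δ * Y / 128)))) := by ring
        _ = (4 * (2 + 4 * (δ ^ 2 * c) ^ 2) * C4 * Real.exp (-√c)) * VV δ T c v := by rw [q4]; ring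
        _ ≤ 1 / 4 * VV δ T c v := mul_le_mul_of_nonneg_right (le_trans (by
            have h9 : (δ ^ 2 * c) ^ 2 ≤ c ^ 2 := pow_le_pow_left₀ hdc0.le hdc 2
            have h10 : 0 ≤ C4 * Real.exp (-√c) := by positivity
            nlinarith) q5) hV0
    have q7 : 2 * ((2 + 4 * (δ ^ 2 * c) ^ 2) * (C3 * T ^ (-(δ ^ 2 / 2000))) * VV δ T c v * ∑ k ∈ IK δ T Y, Real.exp (4 * (2 ^ k * Y) / (δ ^ 2 * c))) ≤
        1 / 4 * VV δ T c v := by
      calc 2 * ((2 + 4 * (δ ^ 2 * c) ^ 2) * (C3 * T ^ (-(δ ^ 2 / 2000))) * VV δ T c v * ∑ k ∈ IK δ T Y, Real.exp (4 * (2 ^ k * Y) / (δ ^ 2 * c))) ≤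
            2 * ((2 + 4 * Real.log T ^ 2) * (C3 * T ^ (-(δ ^ 2 / 2000))) * VV δ T c v * (3 * Real.log T * T ^ (δ ^ 2 / 8000))) := by
            apply mul_le_mul_of_nonneg_left _ (by norm_num)
            apply mul_le_mul _ q3 (Finset.sum_nonneg fun k _ => (Real.exp_pos _).le) (by positivity)
            apply mul_le_mul_of_nonneg_right _ hV0
            apply mul_le_mul_of_nonneg_right _ (by positivity)
            have : (δ ^ 2 * c) ^ 2 ≤ Real.log T ^ 2 := pow_le_pow_left₀ hdc0.le (by linarith) 2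
            linarith
        _ = 2 * ((2 + 4 * Real.log T ^ 2) * (C3 * T ^ (-(δ ^ 2 / 2000))) * (3 * Real.log T * T ^ (δ ^ 2 / 8000))) * VV δ T c v := by ring
        _ ≤ 1 / 4 * VV δ T c v := mul_le_mul_of_nonneg_right g3 hV0
    linarith
  have bB : ∫ t, Real.exp (XX δ T c) * (C7 / T) * (wt δ T c v τ t * Real.log (4 + T + |t + u|)) ≤ 1 / 4 * VV δ T c v := by
    rw [integral_const_mul]
    have q1 : (NR δ T : ℝ) ≤ T ^ (1 / 2 - δ) := by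
      unfold NR
      exact Nat.floor_le (by positivity)
    have q2 : I1 * (NR δ T * T ^ (δ / 64)) ^ 2 * T ^ δ ≤ I1 * (T ^ (1 / 2 - δ) * T ^ (δ / 64)) ^ 2 * T ^ δ := by gcongr
    calc Real.exp (XX δ T c) * (C7 / T) * ∫ t, wt δ T c v τ t * Real.log (4 + T + |t + u|) ≤
          T ^ (δ ^ 2 / 8000) * (C7 / T) * (I1 * (T ^ (1 / 2 - δ) * T ^ (δ / 64)) ^ 2 * T ^ δ) := by
          apply mul_le_mul _ (b7.trans q2) (integral_nonneg fun t => mul_nonneg (wt_nonneg hT0 c v τ t)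
            (Real.log_nonneg (by have := abs_nonneg (t + u); linarith))) (by positivity)
          exact mul_le_mul_of_nonneg_right hXe (by positivity)
      _ ≤ 1 / 4 := g5
      _ ≤ 1 / 4 * VV δ T c v := by linarith
  have bC : ∫ t, Real.exp (XX δ T c) * (wt δ T c v τ t * ∑' ρ : ZS, mx ρ * (if |(ρ : ℂ).re - 1 / 2| < δ / 128 then 0 else
      1 / (1 + zb (XX δ T c) (t + u) ρ ^ 2))) ≤ 1 / 4 * VV δ T c v := by
    rw [integral_const_mul]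
    calc Real.exp (XX δ T c) * ∫ t, (wt δ T c v τ t * ∑' ρ : ZS, mx ρ * (if |(ρ : ℂ).re - 1 / 2| < δ / 128 then 0 else
          1 / (1 + zb (XX δ T c) (t + u) ρ ^ 2))) ≤ Real.exp (XX δ T c) * (T ^ (-(δ / 2000)) * VV δ T c v) :=
          mul_le_mul_of_nonneg_left b6 (Real.exp_pos _).le
      _ ≤ T ^ (δ ^ 2 / 8000) * (T ^ (-(δ / 2000)) * VV δ T c v) := mul_le_mul_of_nonneg_right hXe (by positivity)
      _ = (T ^ (δ ^ 2 / 8000) * T ^ (-(δ / 2000))) * VV δ T c v := by ring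
      _ ≤ 1 / 4 * VV δ T c v := mul_le_mul_of_nonneg_right g4 hV0
  have bM : ∫ t, M t ≤ VV δ T c v := by
    have e1 : ∫ t, M t = (∫ t, 2 * ∑ k ∈ IK δ T Y, wt δ T c v τ t * LY C3 δ T c (2 ^ k * Y) (t + u)) +
        (∫ t, Real.exp (XX δ T c) * (C7 / T) * (wt δ T c v τ t * Real.log (4 + T + |t + u|))) +
        ∫ t, Real.exp (XX δ T c) * (wt δ T c v τ t * ∑' ρ : ZS, mx ρ * (if |(ρ : ℂ).re - 1 / 2| < δ / 128 then 0 else
          1 / (1 + zb (XX δ T c) (t + u) ρ ^ 2))) := by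
      have e2 := integral_add (iA.add iB) iC
      simp only [Pi.add_apply] at e2
      rw [integral_add iA iB] at e2
      exact e2
    rw [e1]
    linarith
  -- the sum over the zeros
  set F : ZS → ℝ → ℝ := fun ρ t => wt δ T c v τ t * (mx ρ * (if Real.log T * |(ρ : ℂ).re - 1 / 2| < Y then 0 else
    Real.exp (2 * za (XX δ T c) ρ) / (1 + zb (XX δ T c) (t + u) ρ ^ 2))) with hF
  have hg0 : ∀ (ρ : ZS) (t : ℝ), 0 ≤ mx ρ * (if Real.log T * |(ρ : ℂ).re - 1 / 2| < Y then 0 else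
    Real.exp (2 * za (XX δ T c) ρ) / (1 + zb (XX δ T c) (t + u) ρ ^ 2)) := by
    intro ρ t
    refine mul_nonneg (mx_nonneg _) ?_
    split_ifs
    · exact le_rfl
    · positivity
  have hgc : ∀ ρ : ZS, Continuous fun t : ℝ => mx ρ * (if Real.log T * |(ρ : ℂ).re - 1 / 2| < Y then 0 else
    Real.exp (2 * za (XX δ T c) ρ) / (1 + zb (XX δ T c) (t + u) ρ ^ 2)) := by
    intro ρ
    refine continuous_const.mul ?_
    split_ifs
    · exact continuous_const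
    · unfold zb
      exact Continuous.div continuous_const (by fun_prop) fun t => by positivity
  have hgb : ∀ (ρ : ZS) (t : ℝ), ‖mx ρ * (if Real.log T * |(ρ : ℂ).re - 1 / 2| < Y then 0 else
    Real.exp (2 * za (XX δ T c) ρ) / (1 + zb (XX δ T c) (t + u) ρ ^ 2))‖ ≤ mx ρ * Real.exp (2 * za (XX δ T c) ρ) := by
    intro ρ t
    rw [Real.norm_eq_abs, abs_of_nonneg (hg0 ρ t)]
    refine mul_le_mul_of_nonneg_left ?_ (mx_nonneg _)
    split_ifs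
    · exact (Real.exp_pos _).le
    · exact div_le_self (Real.exp_pos _).le (by have := sq_nonneg (zb (XX δ T c) (t + u) ρ); linarith)
  have hwi : Integrable (wt δ T c v τ) := by
    refine i7.mono' (wt_cont hT0 c v τ).aestronglyMeasurable (ae_of_all _ fun t => ?_)
    rw [Real.norm_eq_abs, abs_of_nonneg (wt_nonneg hT0 c v τ t)]
    refine le_mul_of_one_le_right (wt_nonneg hT0 c v τ t) ?_
    have q1 : 3 ≤ Real.log T := hL3
    have q2 : Real.log T ≤ Real.log (4 + T + |t + u|) := Real.log_le_log hT0 (by have := abs_nonneg (t + u); linarith)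
    linarith
  have hFi : ∀ ρ, Integrable (F ρ) := fun ρ => hwi.mul_bdd (hgc ρ).aestronglyMeasurable (ae_of_all _ (hgb ρ))
  have hF0 : ∀ ρ t, 0 ≤ F ρ t := fun ρ t => mul_nonneg (wt_nonneg hT0 c v τ t) (hg0 ρ t)
  have hFm : ∀ ρ, Measurable (F ρ) := fun ρ => ((wt_cont hT0 c v τ).mul (hgc ρ)).measurable
  have hB : ∀ Z : Finset ZS, ∑ ρ ∈ Z, ∫ t, F ρ t ≤ VV δ T c v := by
    intro Z
    rw [← integral_finsetSum _ fun ρ _ => hFi ρ]
    refine (integral_mono (integrable_finsetSum _ fun ρ _ => hFi ρ) iM fun t => ?_).trans bM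
    obtain ⟨s1, s2⟩ := h7 T hT3 (XX δ T c) (by linarith) (t + u)
    have s3 := far_fin hch hδ hδ1 hT3 hcpos hY1 s1 Z
    have s4 : ∑ ρ ∈ Z, F ρ t = wt δ T c v τ t * ∑ ρ ∈ Z, mx ρ * (if Real.log T * |(ρ : ℂ).re - 1 / 2| < Y then 0 else
        Real.exp (2 * za (XX δ T c) ρ) / (1 + zb (XX δ T c) (t + u) ρ ^ 2)) := by
      rw [Finset.mul_sum]
    show ∑ ρ ∈ Z, F ρ t ≤ M t
    rw [s4]
    have s5 := wt_nonneg (δ := δ) hT0 c v τ t
    have s6 := mul_le_mul_of_nonneg_left s2 (Real.exp_pos (XX δ T c)).le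
    calc wt δ T c v τ t * ∑ ρ ∈ Z, mx ρ * (if Real.log T * |(ρ : ℂ).re - 1 / 2| < Y then 0 else
          Real.exp (2 * za (XX δ T c) ρ) / (1 + zb (XX δ T c) (t + u) ρ ^ 2)) ≤
          wt δ T c v τ t * (2 * ∑ k ∈ IK δ T Y, LY C3 δ T c (2 ^ k * Y) (t + u) +
            Real.exp (XX δ T c) * (C7 * Real.log (4 + T + |t + u|) / T) +
            Real.exp (XX δ T c) * ∑' ρ : ZS, mx ρ * (if |(ρ : ℂ).re - 1 / 2| < δ / 128 then 0 else
              1 / (1 + zb (XX δ T c) (t + u) ρ ^ 2))) := by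
          apply mul_le_mul_of_nonneg_left _ s5
          linarith
      _ = M t := by
          simp only [hM]
          rw [← Finset.mul_sum]
          ring
  obtain ⟨r1, r2⟩ := tsum_bound56 hF0 hFm hFi hB
  have hfar : (fun t => wt δ T c v τ t * far δ T c Y (t + u)) = fun t => ∑' ρ, F ρ t := by
    funext t
    unfold far
    rw [← tsum_mul_left]
  rw [hfar]
  exact ⟨r1, r2⟩

end Pool.Agent.Helper87.UV
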