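import Pool.Agent.Helper69.UV.Defs
import Pool.Agent.Helper87.UG.LossPt

/-! # UV-K3, K4: the loss from the zeros off the line, from UG with `δ² c` in place of `c` -/

set_option autoImplicit false
open MeasureTheory Set Filter Topology
open Pool.Agent.Helper57.Zeta Pool.Agent.Helper57.LH Pool.Agent.Helper57.ED Pool.Agent.Helper54.LG
open Pool.Agent.Helper69.UG (pt NX)
open Pool.Agent.Helper69.UV

namespace Pool.Agent.Helper87.UV

/-- K3: pointwise loss (`e = 1, 2`; `C` absolute) -/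
theorem loss_pt : ∃ C : ℝ, 0 < C ∧ ∀ δ T c Y t e : ℝ, 0 < δ → δ ≤ 1 / 32 → 3 ≤ T → 0 < c → 0 < Y → Y ≤ δ ^ 2 * c →
    e = 1 ∨ e = 2 →
    |NX (XX δ T c / e) t - (MM (XX δ T c / e) t - SS (XX δ T c / e) t)| ≤
      C * ((Y / (δ ^ 2 * c)) ^ 2 * near δ T c Y t + far δ T c Y t) := by
  obtain ⟨C, hC, h⟩ := Pool.Agent.Helper87.UG.loss_pt
  exact ⟨C, hC, fun δ T c Y t e hδ _ hT hc hY hYc he => h T (δ ^ 2 * c) Y t e hT (by positivity) hY hYc he⟩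

/-- K4: the count from the kernel (`C`, `c2` absolute) -/
theorem near_pt : ∃ C c2 : ℝ, 0 < C ∧ 0 < c2 ∧ ∀ δ T c Y t : ℝ, 0 < δ → δ ≤ 1 / 32 → 3 ≤ T → 0 < c → 0 < Y →
    Y ≤ c2 * (δ ^ 2 * c) →
    near δ T c Y t ≤ C * (MM (XX δ T c) t - SS (XX δ T c) t + far δ T c Y t) := by
  obtain ⟨C, c2, hC, hc2, h⟩ := Pool.Agent.Helper87.UG.near_pt
  exact ⟨C, c2, hC, hc2, fun δ T c Y t hδ _ hT hc hY hYc => h T (δ ^ 2 * c) Y t hT (by positivity) hY hYc⟩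

end Pool.Agent.Helper87.UV
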