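import Pool.Agent.Helper87.UV.FarA

/-!
# UV: block Z8 (`far_mean`), preliminaries for the means
-/

set_option autoImplicit false
open MeasureTheory Set Filter Topology
open Pool.Agent.Helper57.Zeta Pool.Agent.Helper57.LH Pool.Agent.Helper57.ED Pool.Agent.Helper54.LG
open Pool.Agent.Helper69.UV
open Pool.Agent.Helper69.UG (pt NX)
open Pool.Agent.Helper56.UG (aj aj_nonneg Jc zs_re56 two_za_le tsum_bound56 sum_aj plog_pt plog)

namespace Pool.Agent.Helper87.UV

variable {δ : ℝ}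

/-! ### the weight -/

lemma RR_cont (δ T c v : ℝ) : Continuous (RR δ T c v) := by
  unfold RR
  refine continuous_finsetSum _ fun n hn => ?_
  have hn1 : 1 ≤ n := (Finset.mem_Icc.1 hn).1
  refine continuous_const.mul (Continuous.const_cpow (by fun_prop) (Or.inl (by exact_mod_cast (by omega : n ≠ 0))))

lemma WW_pos {δ T : ℝ} (hT : 0 < T) : 0 < WW δ T := Real.rpow_pos_of_pos hT _

lemma wt_cont {T : ℝ} (hT : 0 < T) (c v τ : ℝ) : Continuous (wt δ T c v τ) := by
  unfold wt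
  have hpi := Real.pi_pos
  have hW := WW_pos (δ := δ) hT
  refine Continuous.mul ?_ ((RR_cont δ T c v).norm.pow 2)
  unfold PW
  exact Continuous.div continuous_const (by fun_prop) fun t => by positivity

lemma wt_nonneg {T : ℝ} (hT : 0 < T) (c v τ t : ℝ) : 0 ≤ wt δ T c v τ t := by
  unfold wt
  exact mul_nonneg (PW_pos (WW_pos hT) _).le (by positivity)

lemma norm_RR_le {T c v B : ℝ} (hB : ∀ n, |rr δ T c v n| ≤ B) (t : ℝ) : ‖RR δ T c v t‖ ≤ NR δ T * B := by
  unfold RR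
  have h0 : 0 ≤ B := (abs_nonneg _).trans (hB 0)
  refine (norm_sum_le _ _).trans ?_
  have h1 : ∀ n ∈ Finset.Icc 1 (NR δ T), ‖(rr δ T c v n : ℂ) * (n : ℂ) ^ (-((1 / 2 : ℂ) + (t : ℂ) * Complex.I))‖ ≤ B := by
    intro n hn
    have hn1 : 1 ≤ n := (Finset.mem_Icc.1 hn).1
    rw [norm_mul, Complex.norm_real, Real.norm_eq_abs, Complex.norm_natCast_cpow_of_pos (by omega)]
    have h2 : (-((1 / 2 : ℂ) + (t : ℂ) * Complex.I)).re = -(1 / 2) := by simp
    rw [h2]
    have h3 : (n : ℝ) ^ (-(1 / 2) : ℝ) ≤ 1 := by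
      apply Real.rpow_le_one_of_one_le_of_nonpos (by exact_mod_cast hn1) (by norm_num)
    calc |rr δ T c v n| * (n : ℝ) ^ (-(1 / 2) : ℝ) ≤ B * 1 := mul_le_mul (hB n) h3 (by positivity) h0
      _ = B := mul_one B
  refine (Finset.sum_le_sum h1).trans ?_
  rw [Finset.sum_const, nsmul_eq_mul, Nat.card_Icc, Nat.add_sub_cancel]

/-- the mean of the logarithm under the weight -/
lemma wt_log (hδ : 0 < δ) (hδ1 : δ ≤ 1 / 32) : ∃ I1 : ℝ, 0 < I1 ∧ ∀ T c v τ u B : ℝ, 1 ≤ T → (∀ n, |rr δ T c v n| ≤ B) → |τ| ≤ 2 * T → |u| ≤ T / 4 →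
    Integrable (fun t => wt δ T c v τ t * Real.log (4 + T + |t + u|)) ∧
    ∫ t, wt δ T c v τ t * Real.log (4 + T + |t + u|) ≤ I1 * (NR δ T * B) ^ 2 * T ^ δ := by
  obtain ⟨I0, hI0, h⟩ := plog
  refine ⟨9 / δ * I0, by positivity, fun T c v τ u B hT hB hτ hu => ?_⟩
  have hT0 : 0 < T := by linarith
  have hW := WW_pos (δ := δ) hT0
  have hWT : WW δ T ≤ T := by
    unfold WW
    calc T ^ (1 - δ / 4096) ≤ T ^ (1 : ℝ) := Real.rpow_le_rpow_of_exponent_le hT (by linarith)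
      _ = T := Real.rpow_one T
  obtain ⟨hi, hb⟩ := h (WW δ T) τ hW
  have hTδ : 0 < T ^ δ := Real.rpow_pos_of_pos hT0 _
  have hpt : ∀ t : ℝ, Real.log (4 + T + |t + u|) ≤ 9 / δ * T ^ δ * Real.sqrt (1 + |t - τ| / WW δ T) := by
    intro t
    have a1 : |t + u| ≤ |t - τ| + |τ| + |u| := by
      calc |t + u| = |(t - τ) + τ + u| := by ring_nf
        _ ≤ |(t - τ) + τ| + |u| := abs_add_le _ _
        _ ≤ |t - τ| + |τ| + |u| := by linarith [abs_add_le (t - τ) τ]
    have a2 : |t - τ| ≤ T * (|t - τ| / WW δ T) := by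
      rw [mul_div_assoc', le_div_iff₀ hW, mul_comm]
      exact mul_le_mul_of_nonneg_right hWT (abs_nonneg _)
    have a3 : 4 + T + |t + u| ≤ 9 * (T * (1 + |t - τ| / WW δ T)) := by
      have a4 : 0 ≤ T * (|t - τ| / WW δ T) := by positivity
      nlinarith
    have a5 : 0 < 4 + T + |t + u| := by positivity
    have a6 : Real.log (4 + T + |t + u|) ≤ (4 + T + |t + u|) ^ δ / δ := Real.log_le_rpow_div a5.le hδ
    refine a6.trans ?_
    have a8 : (4 + T + |t + u|) ^ δ ≤ 9 * (T ^ δ * Real.sqrt (1 + |t - τ| / WW δ T)) := by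
      have q0 : 1 ≤ 1 + |t - τ| / WW δ T := by
        have : 0 ≤ |t - τ| / WW δ T := by positivity
        linarith
      calc (4 + T + |t + u|) ^ δ ≤ (9 * (T * (1 + |t - τ| / WW δ T))) ^ δ := Real.rpow_le_rpow a5.le a3 hδ.le
        _ = 9 ^ δ * (T ^ δ * (1 + |t - τ| / WW δ T) ^ δ) := by
            rw [Real.mul_rpow (by norm_num) (by positivity), Real.mul_rpow hT0.le (by positivity)]
        _ ≤ 9 * (T ^ δ * Real.sqrt (1 + |t - τ| / WW δ T)) := by
            have q1 : (9 : ℝ) ^ δ ≤ 9 := by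
              calc (9 : ℝ) ^ δ ≤ 9 ^ (1 : ℝ) := Real.rpow_le_rpow_of_exponent_le (by norm_num) (by linarith)
                _ = 9 := Real.rpow_one 9
            have q2 : (1 + |t - τ| / WW δ T) ^ δ ≤ Real.sqrt (1 + |t - τ| / WW δ T) := by
              rw [Real.sqrt_eq_rpow]
              exact Real.rpow_le_rpow_of_exponent_le q0 (by linarith)
            exact mul_le_mul q1 (mul_le_mul_of_nonneg_left q2 hTδ.le) (by positivity) (by norm_num)
    calc (4 + T + |t + u|) ^ δ / δ ≤ 9 * (T ^ δ * Real.sqrt (1 + |t - τ| / WW δ T)) / δ :=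
          div_le_div_of_nonneg_right a8 hδ.le
      _ = _ := by ring
  have hlog0 : ∀ t : ℝ, 0 ≤ Real.log (4 + T + |t + u|) := fun t => Real.log_nonneg (by have := abs_nonneg (t + u); linarith)
  have hB0 : 0 ≤ B := (abs_nonneg _).trans (hB 0)
  have hle : ∀ t : ℝ, wt δ T c v τ t * Real.log (4 + T + |t + u|) ≤
      (9 / δ * (NR δ T * B) ^ 2 * T ^ δ) * (PW (WW δ T) (t - τ) * Real.sqrt (1 + |t - τ| / WW δ T)) := by
    intro t
    have b1 : ‖RR δ T c v t‖ ^ 2 ≤ (NR δ T * B) ^ 2 := pow_le_pow_left₀ (norm_nonneg _) (norm_RR_le hB t) 2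
    have b2 := (PW_pos hW (t - τ)).le
    unfold wt
    calc PW (WW δ T) (t - τ) * ‖RR δ T c v t‖ ^ 2 * Real.log (4 + T + |t + u|) ≤
          PW (WW δ T) (t - τ) * (NR δ T * B) ^ 2 * (9 / δ * T ^ δ * Real.sqrt (1 + |t - τ| / WW δ T)) :=
          mul_le_mul (mul_le_mul_of_nonneg_left b1 b2) (hpt t) (hlog0 t) (by positivity)
      _ = _ := by ring
  have hcont : Continuous fun t : ℝ => wt δ T c v τ t * Real.log (4 + T + |t + u|) := by
    refine (wt_cont hT0 c v τ).mul (Continuous.log (by fun_prop) fun t => ?_)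
    have := abs_nonneg (t + u)
    positivity
  have hI : Integrable (fun t => wt δ T c v τ t * Real.log (4 + T + |t + u|)) :=
    (hi.const_mul (9 / δ * (NR δ T * B) ^ 2 * T ^ δ)).mono' hcont.aestronglyMeasurable (ae_of_all _ fun t => by
      rw [Real.norm_eq_abs, abs_of_nonneg (mul_nonneg (wt_nonneg hT0 c v τ t) (hlog0 t))]
      exact hle t)
  refine ⟨hI, (integral_mono hI (hi.const_mul _) hle).trans ?_⟩
  rw [integral_const_mul]
  calc 9 / δ * (NR δ T * B) ^ 2 * T ^ δ * ∫ t, PW (WW δ T) (t - τ) * Real.sqrt (1 + |t - τ| / WW δ T) ≤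
        9 / δ * (NR δ T * B) ^ 2 * T ^ δ * I0 := mul_le_mul_of_nonneg_left hb (by positivity)
    _ = _ := by ring

end Pool.Agent.Helper87.UV
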