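import Pool.Agent.Helper87.UV.FarB

/-!
# UV: block Z8 (`far_mean`), the means
-/

set_option autoImplicit false
open MeasureTheory Set Filter Topology
open Pool.Agent.Helper57.Zeta Pool.Agent.Helper57.LH Pool.Agent.Helper57.ED Pool.Agent.Helper54.LG
open Pool.Agent.Helper69.UV
open Pool.Agent.Helper69.UG (pt NX)
open Pool.Agent.Helper56.UG (aj aj_nonneg Jc zs_re56 two_za_le tsum_bound56 sum_aj plog_pt plog)

namespace Pool.Agent.Helper87.UV

variable {δ : ℝ}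

/-- the mean of one layer -/
lemma mean_LY {C3 C4 T c v τ u : ℝ} (hδ : 0 < δ) (hδ1 : δ ≤ 1 / 32) (hC3 : 0 ≤ C3) (hC4 : 0 ≤ C4) (hT : 3 ≤ T) (hu : |u| ≤ T / 4)
    (hV : 0 ≤ VV δ T c v)
    (h4 : ∀ u' y : ℝ, |u'| ≤ T → 2 ≤ y → ∀ K : ℕ, 1 ≤ K → 4 * 2 ^ K * y ≤ δ * Real.log T / 8 →
      Integrable (fun t => wt δ T c v τ t * GY δ T c y K (t + u')) ∧
      ∫ t, wt δ T c v τ t * GY δ T c y K (t + u') ≤ C4 * Real.exp (C4 * √c - δ * y / 64) * VV δ T c v)
    (h5 : ∀ u' y : ℝ, |u'| ≤ T → 2 ≤ y → ∀ K : ℕ, 1 ≤ K → 4 * 2 ^ K * y ≤ δ * Real.log T / 8 → δ * Real.log T / 8 < 8 * 2 ^ K * y →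
      Integrable (fun t => wt δ T c v τ t * (Real.log (4 + |t + u'|) * cen δ T c y (K - 1) (t + u'))) ∧
      ∫ t, wt δ T c v τ t * (Real.log (4 + |t + u'|) * cen δ T c y (K - 1) (t + u')) ≤ T ^ (-(δ ^ 2 / 2000)) * VV δ T c v)
    {y : ℝ} (hy2 : 2 ≤ y) (hyT : y ≤ δ * Real.log T / 128) :
    Integrable (fun t => wt δ T c v τ t * LY C3 δ T c y (t + u)) ∧
    ∫ t, wt δ T c v τ t * LY C3 δ T c y (t + u) ≤
      Real.exp (4 * y / (δ ^ 2 * c)) * ((2 + 4 * (δ ^ 2 * c) ^ 2) * ((C4 * Real.exp (C4 * √c - δ * y / 64) + C3 * T ^ (-(δ ^ 2 / 2000))) * VV δ T c v)) := by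
  have hy : 0 < y := by linarith
  have hL : 0 < Real.log T := Real.log_pos (by linarith)
  obtain ⟨k1, k2, k3⟩ := Kc_spec hy hyT
  set L := Real.log T with hLd
  set K := Kc δ T y with hK
  have hshift : ∀ j ∈ Finset.Icc (-(Jc T y)) (Jc T y), |u + 2 * (j : ℝ) * y / L| ≤ T := by
    intro j hj
    obtain ⟨a, b⟩ := Finset.mem_Icc.1 hj
    have h1 : |(j : ℝ)| ≤ T * L / (4 * y) + 2 := by
      have h2 : |(j : ℝ)| ≤ ((Jc T y : ℤ) : ℝ) := by
        rw [abs_le]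
        exact ⟨by exact_mod_cast a, by exact_mod_cast b⟩
      refine h2.trans ?_
      unfold Jc
      push_cast
      have := Int.ceil_lt_add_one (T * Real.log T / (4 * y))
      linarith
    have h3 : |2 * (j : ℝ) * y / L| = |(j : ℝ)| * (2 * y / L) := by
      rw [show 2 * (j : ℝ) * y / L = (j : ℝ) * (2 * y / L) by ring, abs_mul, abs_of_pos (by positivity : 0 < 2 * y / L)]
    have h4' : |(j : ℝ)| * (2 * y / L) ≤ (T * L / (4 * y) + 2) * (2 * y / L) := mul_le_mul_of_nonneg_right h1 (by positivity)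
    have h5' : (T * L / (4 * y) + 2) * (2 * y / L) = T / 2 + 4 * (y / L) := by
      field_simp
      ring
    have h6 : y / L ≤ 1 / 64 := by
      rw [div_le_iff₀ hL]
      nlinarith
    calc |u + 2 * (j : ℝ) * y / L| ≤ |u| + |2 * (j : ℝ) * y / L| := abs_add_le _ _
      _ ≤ T := by rw [h3]; linarith
  have hterm : ∀ j ∈ Finset.Icc (-(Jc T y)) (Jc T y),
      Integrable (fun t => wt δ T c v τ t * HC C3 δ T c y K (t + u + 2 * j * y / L)) ∧
      ∫ t, wt δ T c v τ t * HC C3 δ T c y K (t + u + 2 * j * y / L) ≤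
        (C4 * Real.exp (C4 * √c - δ * y / 64) + C3 * T ^ (-(δ ^ 2 / 2000))) * VV δ T c v := by
    intro j hj
    obtain ⟨a1, a2⟩ := h4 _ y (hshift j hj) hy2 K k1 k2
    obtain ⟨b1, b2⟩ := h5 _ y (hshift j hj) hy2 K k1 k2 k3
    have he : (fun t => wt δ T c v τ t * HC C3 δ T c y K (t + u + 2 * j * y / L)) = fun t =>
        wt δ T c v τ t * GY δ T c y K (t + (u + 2 * j * y / L)) +
          C3 * (wt δ T c v τ t * (Real.log (4 + |t + (u + 2 * j * y / L)|) * cen δ T c y (K - 1) (t + (u + 2 * j * y / L)))) := by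
      funext t
      unfold HC
      rw [add_assoc t u]
      ring
    rw [he]
    refine ⟨a1.add (b1.const_mul C3), ?_⟩
    rw [integral_add a1 (b1.const_mul C3), integral_const_mul]
    have := mul_le_mul_of_nonneg_left b2 hC3
    linarith
  have he : (fun t => wt δ T c v τ t * LY C3 δ T c y (t + u)) = fun t =>
      ∑ j ∈ Finset.Icc (-(Jc T y)) (Jc T y), (Real.exp (4 * y / (δ ^ 2 * c)) * aj (δ ^ 2 * c) j) * (wt δ T c v τ t * HC C3 δ T c y K (t + u + 2 * j * y / L)) := by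
    funext t
    unfold LY
    rw [Finset.mul_sum, Finset.mul_sum]
    refine Finset.sum_congr rfl fun j _ => ?_
    ring
  rw [he]
  refine ⟨integrable_finsetSum _ fun j hj => (hterm j hj).1.const_mul _, ?_⟩
  rw [integral_finsetSum _ fun j hj => (hterm j hj).1.const_mul _]
  set Bd : ℝ := (C4 * Real.exp (C4 * √c - δ * y / 64) + C3 * T ^ (-(δ ^ 2 / 2000))) * VV δ T c v with hBd
  have hBd0 : 0 ≤ Bd := by positivity
  calc ∑ j ∈ Finset.Icc (-(Jc T y)) (Jc T y), ∫ t, (Real.exp (4 * y / (δ ^ 2 * c)) * aj (δ ^ 2 * c) j) * (wt δ T c v τ t * HC C3 δ T c y K (t + u + 2 * j * y / L)) ≤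
        ∑ j ∈ Finset.Icc (-(Jc T y)) (Jc T y), (Real.exp (4 * y / (δ ^ 2 * c)) * aj (δ ^ 2 * c) j) * Bd := by
        refine Finset.sum_le_sum fun j hj => ?_
        rw [integral_const_mul]
        exact mul_le_mul_of_nonneg_left (hterm j hj).2 (mul_nonneg (Real.exp_pos _).le (aj_nonneg _ _))
    _ = Real.exp (4 * y / (δ ^ 2 * c)) * ((∑ j ∈ Finset.Icc (-(Jc T y)) (Jc T y), aj (δ ^ 2 * c) j) * Bd) := by
        rw [Finset.sum_mul, Finset.mul_sum]
        refine Finset.sum_congr rfl fun j _ => ?_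
        ring
    _ ≤ Real.exp (4 * y / (δ ^ 2 * c)) * ((2 + 4 * (δ ^ 2 * c) ^ 2) * Bd) := by
        apply mul_le_mul_of_nonneg_left _ (Real.exp_pos _).le
        exact mul_le_mul_of_nonneg_right (sum_aj (δ ^ 2 * c) _) hBd0

/-- the sum over the layers, main part -/
lemma sum_k1 {T c Y : ℝ} (hδ : 0 < δ) (hc0 : 0 < c) (hc : 512 ≤ δ ^ 3 * c) (hY0 : 0 < Y) (hY : 128 ≤ δ * Y) :
    ∑ k ∈ IK δ T Y, Real.exp (4 * (2 ^ k * Y) / (δ ^ 2 * c)) * Real.exp (-(δ * (2 ^ k * Y) / 64)) ≤ 2 * Real.exp (-(δ * Y / 128)) := by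
  have h1 : ∀ k ∈ IK δ T Y, Real.exp (4 * (2 ^ k * Y) / (δ ^ 2 * c)) * Real.exp (-(δ * (2 ^ k * Y) / 64)) ≤ Real.exp (-(δ * Y / 128)) * (1 / 2) ^ k := by
    intro k _
    have hy : 0 < 2 ^ k * Y := by positivity
    have h2 : 4 * (2 ^ k * Y) / (δ ^ 2 * c) ≤ δ * (2 ^ k * Y) / 128 := by
      rw [div_le_div_iff₀ (by positivity) (by norm_num)]
      have h9 := mul_le_mul_of_nonneg_left hc hy.le
      nlinarith
    have h3 : (k : ℝ) + 1 ≤ 2 ^ k := by exact_mod_cast Nat.lt_two_pow_self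
    have h4 : (1 / 2 : ℝ) ^ k ≥ Real.exp (-(k : ℝ)) := by
      rw [show -(k : ℝ) = (k : ℝ) * (-1) by ring, Real.exp_nat_mul]
      apply pow_le_pow_left₀ (Real.exp_pos _).le
      rw [Real.exp_neg, inv_eq_one_div]
      apply one_div_le_one_div_of_le (by norm_num)
      have := Real.add_one_le_exp (1 : ℝ)
      linarith
    rw [← Real.exp_add]
    calc Real.exp (4 * (2 ^ k * Y) / (δ ^ 2 * c) + -(δ * (2 ^ k * Y) / 64)) ≤ Real.exp (-(δ * Y / 128) + -(k : ℝ)) := by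
          apply Real.exp_le_exp.2
          have h5 : δ * (2 ^ k * Y) / 128 ≥ δ * Y / 128 + k := by
            have h6 : (2 ^ k - 1) * (δ * Y / 128) ≥ k * 1 := by
              apply mul_le_mul (by linarith) (by linarith) (by norm_num)
              have : (1 : ℝ) ≤ 2 ^ k := one_le_pow₀ (by norm_num)
              linarith
            linarith
          linarith
      _ = Real.exp (-(δ * Y / 128)) * Real.exp (-(k : ℝ)) := Real.exp_add _ _
      _ ≤ _ := mul_le_mul_of_nonneg_left h4 (Real.exp_pos _).le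
  refine (Finset.sum_le_sum h1).trans ?_
  rw [← Finset.mul_sum, mul_comm 2]
  apply mul_le_mul_of_nonneg_left _ (Real.exp_pos _).le
  refine (Finset.sum_le_sum_of_subset_of_nonneg (Finset.filter_subset _ _) fun k _ _ => by positivity).trans ?_
  have h2 := (summable_geometric_of_lt_one (by norm_num : (0 : ℝ) ≤ 1 / 2) (by norm_num)).sum_le_tsum
    (Finset.range (⌈Real.log T⌉₊ + 1)) fun k _ => by positivity
  rw [tsum_geometric_of_lt_one (by norm_num) (by norm_num)] at h2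
  norm_num at h2 ⊢
  exact h2

/-- the sum over the layers, second part -/
lemma sum_k2 {T c Y : ℝ} (hδ : 0 < δ) (hT : Real.exp 2 ≤ T) (hc0 : 0 < c) (hc : 250 ≤ δ ^ 3 * c) :
    ∑ k ∈ IK δ T Y, Real.exp (4 * (2 ^ k * Y) / (δ ^ 2 * c)) ≤ 3 * Real.log T * T ^ (δ ^ 2 / 8000) := by
  have hT0 : 0 < T := lt_of_lt_of_le (Real.exp_pos _) hT
  have hL : 2 ≤ Real.log T := by
    rw [← Real.log_exp 2]
    exact Real.log_le_log (Real.exp_pos _) hT
  have h1 : ∀ k ∈ IK δ T Y, Real.exp (4 * (2 ^ k * Y) / (δ ^ 2 * c)) ≤ T ^ (δ ^ 2 / 8000) := by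
    intro k hk
    have h2 : 2 ^ k * Y ≤ δ * Real.log T / 128 := by
      unfold IK at hk
      exact (Finset.mem_filter.1 hk).2
    rw [Real.rpow_def_of_pos hT0]
    apply Real.exp_le_exp.2
    rw [div_le_iff₀ (by positivity)]
    have h9 : δ * 250 * Real.log T ≤ δ * (δ ^ 3 * c) * Real.log T := by gcongr
    nlinarith
  refine (Finset.sum_le_card_nsmul _ _ _ h1).trans ?_
  rw [nsmul_eq_mul]
  apply mul_le_mul_of_nonneg_right _ (by positivity)
  have h3 : (IK δ T Y).card ≤ ⌈Real.log T⌉₊ + 1 := by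
    unfold IK
    exact (Finset.card_filter_le _ _).trans (by simp)
  have h4 : ((IK δ T Y).card : ℝ) ≤ ⌈Real.log T⌉₊ + 1 := by exact_mod_cast h3
  have h5 := Nat.ceil_lt_add_one (show 0 ≤ Real.log T by linarith)
  linarith

end Pool.Agent.Helper87.UV
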